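import Pool.Agent.J4H58.OC.Stm

/-!
# The quantile function of a log-concave density (project OC, job Q)
-/

set_option autoImplicit false

namespace Pool.Agent.J4H47.OC

open MeasureTheory Set Filter Topology
open Pool.Agent.J4H58.OC

variable {w : ℝ → ℝ}

theorem fc_sub (h : LD w) (a b : ℝ) : Fc w b - Fc w a = ∫ x in a..b, w x :=
  intervalIntegral.integral_Iic_sub_Iic h.int.integrableOn h.int.integrableOn

theorem fc_mono (h : LD w) : Monotone (Fc w) := by
  intro a b hab
  have := fc_sub h a b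
  have h2 : 0 ≤ ∫ x in a..b, w x := intervalIntegral.integral_nonneg hab fun x _ => h.nonneg x
  linarith

theorem fc_cont (h : LD w) : Continuous (Fc w) := by
  have : Fc w = fun b => Fc w 0 + ∫ x in (0 : ℝ)..b, w x := by
    funext b; rw [← fc_sub h]; ring
  rw [this]
  exact continuous_const.add
    (intervalIntegral.continuous_primitive (fun a b => h.int.intervalIntegrable) 0)

theorem fc_Ioi (h : LD w) (t : ℝ) : ∫ x in Ioi t, w x = 1 - Fc w t := by
  have := integral_add_compl (μ := volume) (s := Iic t) measurableSet_Iic h.int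
  rw [compl_Iic, h.one] at this
  unfold Fc
  linarith

theorem fc_nonneg (h : LD w) (t : ℝ) : 0 ≤ Fc w t :=
  setIntegral_nonneg measurableSet_Iic fun x _ => h.nonneg x

theorem fc_le_one (h : LD w) (t : ℝ) : Fc w t ≤ 1 := by
  have := fc_Ioi h t
  have h2 : 0 ≤ ∫ x in Ioi t, w x := setIntegral_nonneg measurableSet_Ioi fun x _ => h.nonneg x
  linarith

theorem fc_bot (h : LD w) : Tendsto (Fc w) atBot (𝓝 0) := by
  have h1 := intervalIntegral_tendsto_integral_Iic (μ := volume) (f := w) 0
    h.int.integrableOn (tendsto_id (α := ℝ) (x := atBot))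
  have h2 : Fc w = fun t => Fc w 0 - ∫ x in t..0, w x := by
    funext t; rw [← fc_sub h]; ring
  rw [h2]
  have h3 : Fc w 0 - ∫ x in Iic (0 : ℝ), w x = 0 := by simp [Fc]
  have h4 := (tendsto_const_nhds (x := Fc w 0) (f := (atBot : Filter ℝ))).sub h1
  rw [h3] at h4
  exact h4

theorem fc_top (h : LD w) : Tendsto (Fc w) atTop (𝓝 1) := by
  have h1 := intervalIntegral_tendsto_integral_Ioi (μ := volume) (f := w) 0
    h.int.integrableOn (tendsto_id (α := ℝ) (x := atTop))
  have h2 : Fc w = fun t => Fc w 0 + ∫ x in (0 : ℝ)..t, w x := by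
    funext t; rw [← fc_sub h]; ring
  rw [h2]
  have h3 : Fc w 0 + ∫ x in Ioi (0 : ℝ), w x = 1 := by rw [fc_Ioi h]; ring
  have h4 := (tendsto_const_nhds (x := Fc w 0) (f := (atTop : Filter ℝ))).add h1
  rw [h3] at h4
  exact h4

theorem fc_surj (h : LD w) {x : ℝ} (hx : x ∈ Ioo (0 : ℝ) 1) : ∃ t, Fc w t = x := by
  obtain ⟨a, ha⟩ := ((fc_bot h).eventually (gt_mem_nhds hx.1)).exists
  obtain ⟨b, hb⟩ := ((fc_top h).eventually (lt_mem_nhds hx.2)).exists
  have hab : a ≤ b := by
    by_contra hab
    have := fc_mono h (not_le.1 hab).le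
    linarith
  have := intermediate_value_Icc hab (fc_cont h).continuousOn ⟨ha.le, hb.le⟩
  obtain ⟨t, _, ht⟩ := this
  exact ⟨t, ht⟩

theorem fc_qt (h : LD w) {x : ℝ} (hx : x ∈ Ioo (0 : ℝ) 1) : Fc w (qt w x) = x := by
  have := fc_surj h hx
  unfold qt
  rw [dif_pos this]
  exact this.choose_spec

theorem pos_left (h : LD w) {t : ℝ} (ht : 0 < Fc w t) : ∃ a < t, 0 < w a := by
  by_contra hn
  push Not at hn
  have : Fc w t = 0 := by
    unfold Fc
    rw [integral_Iic_eq_integral_Iio]
    apply setIntegral_eq_zero_of_forall_eq_zero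
    intro x hx
    exact le_antisymm (hn x hx) (h.nonneg x)
  linarith

theorem pos_right (h : LD w) {t : ℝ} (ht : Fc w t < 1) : ∃ b > t, 0 < w b := by
  by_contra hn
  push Not at hn
  have : ∫ x in Ioi t, w x = 0 := by
    apply setIntegral_eq_zero_of_forall_eq_zero
    intro x hx
    exact le_antisymm (hn x hx) (h.nonneg x)
  rw [fc_Ioi h] at this
  linarith

theorem pos_between (h : LD w) {a b s : ℝ} (ha : 0 < w a) (hb : 0 < w b) (h1 : a < s)
    (h2 : s < b) : 0 < w s := by
  have hab : 0 < b - a := by linarith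
  have := h.logc a b ((s - a) / (b - a)) (div_pos (by linarith) hab)
    ((div_lt_one hab).2 (by linarith))
  have e : (1 - (s - a) / (b - a)) * a + (s - a) / (b - a) * b = s := by
    field_simp; ring
  rw [e] at this
  exact lt_of_lt_of_le (mul_pos (Real.rpow_pos_of_pos ha _) (Real.rpow_pos_of_pos hb _)) this

theorem fc_inj (h : LD w) {u v : ℝ} (huv : u < v) (hu : 0 < Fc w u) (hv : Fc w v < 1) :
    Fc w u < Fc w v := by
  obtain ⟨a, ha, ha'⟩ := pos_left h hu
  obtain ⟨b, hb, hb'⟩ := pos_right h hv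
  have := intervalIntegral.intervalIntegral_pos_of_pos_on (f := w) (a := u) (b := v)
    h.int.intervalIntegrable
    (fun x hx => pos_between h ha' hb' (ha.trans hx.1) (hx.2.trans hb)) huv
  rw [← fc_sub h] at this
  linarith

theorem qt_fc (h : LD w) {t : ℝ} (ht : Fc w t ∈ Ioo (0 : ℝ) 1) : qt w (Fc w t) = t := by
  have e := fc_qt h ht
  rcases lt_trichotomy (qt w (Fc w t)) t with hl | he | hg
  · have := fc_inj h hl (by rw [e]; exact ht.1) ht.2
    linarith
  · exact he
  · have := fc_inj h hg ht.1 (by rw [e]; exact ht.2)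
    linarith

theorem w_cont (h : LD w) {a b s : ℝ} (ha : 0 < w a) (hb : 0 < w b) (h1 : a < s)
    (h2 : s < b) : ContinuousAt w s := by
  have hp : ∀ x ∈ Ioo a b, 0 < w x := fun x hx => pos_between h ha hb hx.1 hx.2
  have hc : ConcaveOn ℝ (Ioo a b) (fun x => Real.log (w x)) := by
    refine ⟨convex_Ioo a b, ?_⟩
    intro x hx y hy α β hα hβ hαβ
    simp only [smul_eq_mul]
    rcases hα.eq_or_lt with h0 | h0
    · subst h0
      have : β = 1 := by linarith
      simp [this]
    rcases hβ.eq_or_lt with h3 | h3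
    · subst h3
      have : α = 1 := by linarith
      simp [this]
    have hα' : α = 1 - β := by linarith
    have hl := h.logc x y β h3 (by linarith)
    have := Real.log_le_log (mul_pos (Real.rpow_pos_of_pos (hp x hx) _)
      (Real.rpow_pos_of_pos (hp y hy) _)) hl
    rw [Real.log_mul (Real.rpow_pos_of_pos (hp x hx) _).ne'
      (Real.rpow_pos_of_pos (hp y hy) _).ne', Real.log_rpow (hp x hx), Real.log_rpow (hp y hy)]
      at this
    rw [hα']
    exact this
  have hco := hc.continuousOn isOpen_Ioo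
  have hs : ContinuousAt (fun x => Real.log (w x)) s := hco.continuousAt (Ioo_mem_nhds h1 h2)
  have he : ContinuousAt (fun x => Real.exp (Real.log (w x))) s := Real.continuous_exp.continuousAt.comp hs
  refine he.congr ?_
  filter_upwards [Ioo_mem_nhds h1 h2] with x hx
  exact Real.exp_log (hp x hx)

theorem qt_good (h : LD w) {x : ℝ} (hx : x ∈ Ioo (0 : ℝ) 1) :
    0 < w (qt w x) ∧ ContinuousAt w (qt w x) := by
  have e := fc_qt h hx
  obtain ⟨a, ha, ha'⟩ := pos_left h (t := qt w x) (by rw [e]; exact hx.1)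
  obtain ⟨b, hb, hb'⟩ := pos_right h (t := qt w x) (by rw [e]; exact hx.2)
  exact ⟨pos_between h ha' hb' ha hb, w_cont h ha' hb' ha hb⟩

theorem fc_lt (h : LD w) {x u : ℝ} (hx : x ∈ Ioo (0 : ℝ) 1) (hu : u < qt w x) : Fc w u < x := by
  have e := fc_qt h hx
  rcases (fc_nonneg h u).eq_or_lt with h0 | h0
  · rw [← h0]; exact hx.1
  · have := fc_inj h hu h0 (by rw [e]; exact hx.2)
    rwa [e] at this

theorem lt_fc (h : LD w) {x u : ℝ} (hx : x ∈ Ioo (0 : ℝ) 1) (hu : qt w x < u) : x < Fc w u := by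
  have e := fc_qt h hx
  rcases (fc_le_one h u).eq_or_lt with h0 | h0
  · rw [h0]; exact hx.2
  · have := fc_inj h hu (by rw [e]; exact hx.1) h0
    rwa [e] at this

theorem qt_cont (h : LD w) {x : ℝ} (hx : x ∈ Ioo (0 : ℝ) 1) : ContinuousAt (qt w) x := by
  refine tendsto_order.2 ⟨fun u hu => ?_, fun v hv => ?_⟩
  · filter_upwards [lt_mem_nhds (fc_lt h hx hu), Ioo_mem_nhds hx.1 hx.2] with y hy hy'
    by_contra hn
    have := fc_mono h (not_lt.1 hn)
    rw [fc_qt h hy'] at this
    linarith
  · filter_upwards [gt_mem_nhds (lt_fc h hx hv), Ioo_mem_nhds hx.1 hx.2] with y hy hy'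
    by_contra hn
    have := fc_mono h (not_lt.1 hn)
    rw [fc_qt h hy'] at this
    linarith

theorem fc_deriv (h : LD w) {s : ℝ} (hs : ContinuousAt w s) : HasDerivAt (Fc w) (w s) s := by
  have h1 := intervalIntegral.integral_hasDerivAt_right (f := w) (a := 0) (b := s)
    h.int.intervalIntegrable
    (h.int.aestronglyMeasurable.stronglyMeasurableAtFilter) hs
  have : Fc w = fun b => Fc w 0 + ∫ x in (0 : ℝ)..b, w x := by
    funext b; rw [← fc_sub h]; ring
  rw [this]
  exact h1.const_add _

theorem qt_deriv (h : LD w) {x : ℝ} (hx : x ∈ Ioo (0 : ℝ) 1) :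
    HasDerivAt (qt w) (w (qt w x))⁻¹ x := by
  obtain ⟨h1, h2⟩ := qt_good h hx
  refine HasDerivAt.of_local_left_inverse (qt_cont h hx) (fc_deriv h h2) h1.ne' ?_
  filter_upwards [Ioo_mem_nhds hx.1 hx.2] with y hy
  exact fc_qt h hy

theorem qt_strict (h : LD w) : StrictMonoOn (qt w) (Ioo 0 1) := by
  intro x hx y hy hxy
  by_contra hn
  have := fc_mono h (not_lt.1 hn)
  rw [fc_qt h hx, fc_qt h hy] at this
  linarith

theorem qt_map (h : LD w) : (volume.restrict (Ioo (0 : ℝ) 1)).map (qt w) = nu w := by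
  have hm : AEMeasurable (qt w) (volume.restrict (Ioo (0 : ℝ) 1)) :=
    aemeasurable_restrict_of_monotoneOn measurableSet_Ioo (qt_strict h).monotoneOn
  have : IsFiniteMeasure (nu w) := by
    unfold nu
    exact isFiniteMeasure_withDensity_ofReal h.int.2
  have : IsFiniteMeasure (Measure.map (qt w) (volume.restrict (Ioo (0 : ℝ) 1))) := by
    infer_instance
  refine Measure.ext_of_Iic _ _ fun t => ?_
  rw [Measure.map_apply_of_aemeasurable hm measurableSet_Iic]
  have hset : qt w ⁻¹' Iic t ∩ Ioo 0 1 = Iic (Fc w t) ∩ Ioo 0 1 := by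
    ext x
    simp only [mem_inter_iff, mem_preimage, mem_Iic, and_congr_left_iff]
    intro hx
    constructor
    · intro hq
      have := fc_mono h hq
      rwa [fc_qt h hx] at this
    · intro hxF
      by_contra hn
      exact absurd (fc_lt h hx (not_le.1 hn)) (not_lt.2 hxF)
  have h1 : (volume.restrict (Ioo (0 : ℝ) 1)) (qt w ⁻¹' Iic t) =
      volume (Iic (Fc w t) ∩ Ioo (0 : ℝ) 1) := by
    rw [Measure.restrict_apply₀ (hm.nullMeasurable measurableSet_Iic), hset]
  rw [h1]
  have h2 : volume (Iic (Fc w t) ∩ Ioo (0 : ℝ) 1) = ENNReal.ofReal (Fc w t) := by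
    apply le_antisymm
    · calc volume (Iic (Fc w t) ∩ Ioo (0 : ℝ) 1) ≤ volume (Ioc (0 : ℝ) (Fc w t)) :=
            measure_mono fun x hx => ⟨hx.2.1, hx.1⟩
        _ = _ := by simp
    · calc ENNReal.ofReal (Fc w t) = volume (Ioo (0 : ℝ) (Fc w t)) := by simp
        _ ≤ _ := measure_mono fun x hx => (⟨hx.2.le, hx.1, hx.2.trans_le (fc_le_one h t)⟩ :
            x ∈ Iic (Fc w t) ∩ Ioo (0 : ℝ) 1)
  rw [h2]
  unfold nu Fc
  rw [withDensity_apply _ measurableSet_Iic,
    ← ofReal_integral_eq_lintegral_ofReal h.int.integrableOn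
      (Eventually.of_forall fun x => h.nonneg x)]

theorem four (h : LD w) {x y z : ℝ} (h1 : x ≤ z) (h2 : z ≤ y) :
    w x * w y ≤ w z * w (x + y - z) := by
  rcases h1.eq_or_lt with rfl | h1
  · apply le_of_eq; congr 2; ring
  rcases h2.eq_or_lt with rfl | h2
  · apply le_of_eq; rw [mul_comm]; congr 2; ring
  have hd : 0 < y - x := by linarith
  set l : ℝ := (z - x) / (y - x) with hl
  have hl0 : 0 < l := div_pos (by linarith) hd
  have hl1 : l < 1 := (div_lt_one hd).2 (by linarith)
  have a1 := h.logc x y l hl0 hl1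
  have a2 := h.logc x y (1 - l) (by linarith) (by linarith)
  have e1 : (1 - l) * x + l * y = z := by rw [hl]; field_simp; ring
  have e2 : (1 - (1 - l)) * x + (1 - l) * y = x + y - z := by rw [hl]; field_simp; ring
  rw [e1] at a1
  rw [e2, sub_sub_cancel] at a2
  have m := mul_le_mul a1 a2 (mul_nonneg (Real.rpow_nonneg (h.nonneg x) _)
    (Real.rpow_nonneg (h.nonneg y) _)) (h.nonneg z)
  have e3 : w x ^ (1 - l) * w y ^ l * (w x ^ l * w y ^ (1 - l)) = w x * w y := by
    have p1 : w x ^ (1 - l) * w x ^ l = w x := by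
      rw [← Real.rpow_add_of_nonneg (h.nonneg x) (by linarith) hl0.le]; simp
    have p2 : w y ^ l * w y ^ (1 - l) = w y := by
      rw [← Real.rpow_add_of_nonneg (h.nonneg y) hl0.le (by linarith)]; simp
    calc _ = (w x ^ (1 - l) * w x ^ l) * (w y ^ l * w y ^ (1 - l)) := by ring
      _ = _ := by rw [p1, p2]
  rwa [e3] at m

theorem qt_hazard (h : LD w) (s : ℝ) {x : ℝ} (hx : x ∈ Ioo (0 : ℝ) 1) :
    w s * (x * (1 - x)) ≤ w (qt w x) := by
  set t := qt w x with ht
  have e : Fc w t = x := fc_qt h hx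
  rcases le_total s t with hst | hst
  · have h1 : ∫ v in Ioi t, w s * w v ≤ ∫ v in Ioi t, w t * w (v - (t - s)) := by
      apply setIntegral_mono_on (h.int.integrableOn.const_mul _)
        (((h.int.comp_sub_right (t - s)).integrableOn).const_mul _) measurableSet_Ioi
      intro v hv
      have := four h (x := s) (y := v) (z := t) hst (le_of_lt hv)
      have e2 : s + v - t = v - (t - s) := by ring
      rwa [e2] at this
    have h2 : ∫ v in Ioi t, w t * w (v - (t - s)) ≤ ∫ v, w t * w (v - (t - s)) :=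
      setIntegral_le_integral ((h.int.comp_sub_right (t - s)).const_mul _)
        (Eventually.of_forall fun v => mul_nonneg (h.nonneg _) (h.nonneg _))
    rw [integral_const_mul, fc_Ioi h, e] at h1
    have h5 : ∫ v, w t * w (v - (t - s)) = w t := by
      rw [integral_const_mul, integral_sub_right_eq_self w, h.one, mul_one]
    rw [h5] at h2
    have h3 : w s * (x * (1 - x)) ≤ w s * (1 - x) := by
      apply mul_le_mul_of_nonneg_left _ (h.nonneg s)
      nlinarith [hx.1, hx.2]
    linarith
  · have h1 : ∫ v in Iic t, w s * w v ≤ ∫ v in Iic t, w t * w (v - (t - s)) := by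
      apply setIntegral_mono_on (h.int.integrableOn.const_mul _)
        (((h.int.comp_sub_right (t - s)).integrableOn).const_mul _) measurableSet_Iic
      intro v hv
      have := four h (x := v) (y := s) (z := t) hv hst
      have e2 : v + s - t = v - (t - s) := by ring
      rw [e2, mul_comm] at this
      exact this
    have h2 : ∫ v in Iic t, w t * w (v - (t - s)) ≤ ∫ v, w t * w (v - (t - s)) :=
      setIntegral_le_integral ((h.int.comp_sub_right (t - s)).const_mul _)
        (Eventually.of_forall fun v => mul_nonneg (h.nonneg _) (h.nonneg _))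
    have e' : ∫ v in Iic t, w v = x := e
    rw [integral_const_mul, e'] at h1
    have h5 : ∫ v, w t * w (v - (t - s)) = w t := by
      rw [integral_const_mul, integral_sub_right_eq_self w, h.one, mul_one]
    rw [h5] at h2
    have h3 : w s * (x * (1 - x)) ≤ w s * x := by
      apply mul_le_mul_of_nonneg_left _ (h.nonneg s)
      nlinarith [hx.1, hx.2]
    linarith

theorem t_Q : S_Q := by
  intro w h
  refine ⟨fun x hx => fc_qt h hx, fun t ht => qt_fc h ht, fun x hx => ?_, qt_strict h, qt_map h,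
    fun s x hx => qt_hazard h s hx⟩
  exact ⟨(qt_good h hx).1, qt_deriv h hx, (qt_good h hx).2⟩

end Pool.Agent.J4H47.OC
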