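import Pool.Agent.J4H58.OC.Stm

/-!
# The variance of a bounded density (project OC, job V12)
-/

set_option autoImplicit false

namespace Pool.Agent.J4H47.OC

open MeasureTheory Set Filter Topology
open Pool.Agent.J4H58.OC

theorem t_V12 : S_V12 := by
  intro w M m h0 hM hw h1 hi
  rcases lt_trichotomy M 0 with hneg | hz | hpos
  · exact absurd ((h0 0).trans (hM 0)) (not_le.2 hneg)
  · have : ∀ x, w x = 0 := fun x => le_antisymm (hz ▸ hM x) (h0 x)
    simp [this] at h1
  set h : ℝ := 1 / (2 * M) with hh
  have hhpos : 0 < h := by positivity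
  -- the comparison density
  have hI : IntegrableOn (fun x : ℝ => (x - m) ^ 2 - h ^ 2) (Ioc (m - h) (m + h)) := by
    apply Continuous.integrableOn_Ioc
    fun_prop
  have key : ∀ x, M * (Ioc (m - h) (m + h)).indicator (fun x : ℝ => (x - m) ^ 2 - h ^ 2) x ≤
      (x - m) ^ 2 * w x - h ^ 2 * w x := by
    intro x
    by_cases hx : x ∈ Ioc (m - h) (m + h)
    · rw [indicator_of_mem hx]
      have : (x - m) ^ 2 - h ^ 2 ≤ 0 := by
        have h2 : |x - m| ≤ h := by rw [abs_le]; constructor <;> linarith [hx.1, hx.2]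
        have := sq_le_sq' (by linarith [(abs_le.1 h2).1]) (abs_le.1 h2).2
        linarith
      nlinarith [hM x]
    · rw [indicator_of_notMem hx]
      have : 0 ≤ (x - m) ^ 2 - h ^ 2 := by
        have h2 : h ≤ |x - m| := by
          rw [mem_Ioc, not_and_or, not_lt, not_le] at hx
          rcases hx with hx | hx
          · rw [abs_of_nonpos (by linarith)]; linarith
          · rw [abs_of_nonneg (by linarith)]; linarith
        have := pow_le_pow_left₀ hhpos.le h2 2
        rw [sq_abs] at this; linarith
      nlinarith [h0 x]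
  have hint : ∫ x, M * (Ioc (m - h) (m + h)).indicator (fun x : ℝ => (x - m) ^ 2 - h ^ 2) x ≤
      ∫ x, ((x - m) ^ 2 * w x - h ^ 2 * w x) :=
    integral_mono (((integrable_indicator_iff measurableSet_Ioc).2 hI).const_mul M)
      (hi.sub (hw.const_mul _)) key
  rw [integral_const_mul, integral_indicator measurableSet_Ioc,
    ← intervalIntegral.integral_of_le (by linarith), integral_sub hi (hw.const_mul _),
    integral_const_mul, h1] at hint
  have hval : ∫ x in (m - h)..(m + h), ((x - m) ^ 2 - h ^ 2) = - (4 / 3) * h ^ 3 := by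
    have h3 : ∫ x in (m - h)..(m + h), ((x - m) ^ 2 - h ^ 2) = ∫ x in (-h)..h, (x ^ 2 - h ^ 2) := by
      rw [intervalIntegral.integral_comp_sub_right (fun x => x ^ 2 - h ^ 2) m]
      congr 1 <;> ring
    rw [h3, intervalIntegral.integral_sub (by simp) (by simp), integral_pow]
    simp
    ring
  rw [hval] at hint
  have e : M * (-(4 / 3) * h ^ 3) + h ^ 2 * 1 = 1 / (12 * M ^ 2) := by
    rw [hh]; field_simp; norm_num
  linarith [hint]

end Pool.Agent.J4H47.OC
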